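import Pool.Agent.H525.ISO.Stm

set_option autoImplicit false
set_option linter.unusedSectionVars false

/-! # The number of generators of an ideal in a box (for helper525) -/

namespace Pool.Agent.H249.ISO

open Finset NumberField Filter

open scoped Classical

variable {K : Type} [Field K] [NumberField K]

theorem norm_eq (x : 𝓞 K) : |((Algebra.norm ℤ x : ℤ) : ℝ)| = ∏ σ : K →ₐ[ℚ] ℂ, ‖σ x‖ := by
  have h1 := Algebra.norm_eq_prod_embeddings ℚ ℂ (x : K)
  have h2 : algebraMap ℚ ℂ (Algebra.norm ℚ (x : K)) = ((Algebra.norm ℤ x : ℤ) : ℂ) := by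
    rw [← Algebra.coe_norm_int]
    simp
  rw [h2] at h1
  have h3 := congrArg norm h1
  rw [norm_prod] at h3
  rw [← h3, Complex.norm_intCast]

theorem card_emb : Fintype.card (K →ₐ[ℚ] ℂ) = Module.finrank ℚ K := AlgHom.card ℚ K ℂ

/-- the norm of a generator -/
theorem absNorm_eq {x : 𝓞 K} {I : Ideal (𝓞 K)} (h : Ideal.span {x} = I) :
    (Ideal.absNorm I : ℝ) = ∏ σ : K →ₐ[ℚ] ℂ, ‖σ x‖ := by
  rw [← norm_eq, ← h, Ideal.absNorm_span_singleton]
  rw [Nat.cast_natAbs, Int.cast_abs]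

/-- finitely many small integers -/
theorem small_finite : {x : 𝓞 K | ∀ σ : K →ₐ[ℚ] ℂ, ‖σ (x : K)‖ ≤ Real.exp 1}.Finite := by
  have h1 := NumberField.Embeddings.finite_of_norm_le K ℂ (Real.exp 1)
  refine Set.Finite.of_finite_image (f := fun x : 𝓞 K => (x : K)) (h1.subset ?_) ?_
  · rintro _ ⟨x, hx, rfl⟩
    refine ⟨RingOfIntegers.isIntegral_coe x, fun φ => ?_⟩
    exact hx φ.toRatAlgHom
  · intro x _ y _ hxy
    exact RingOfIntegers.ext hxy

theorem lower {I : Ideal (𝓞 K)} {B : ℝ} (hB : 1 ≤ B) {x : 𝓞 K} (h : Ideal.span {x} = I)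
    (hx : ∀ σ : K →ₐ[ℚ] ℂ, ‖σ (x : K)‖ ≤ B) (σ : K →ₐ[ℚ] ℂ) :
    (Ideal.absNorm I : ℝ) ≤ ‖σ (x : K)‖ * B ^ (Module.finrank ℚ K - 1) := by
  rw [absNorm_eq h, ← Finset.mul_prod_erase Finset.univ _ (Finset.mem_univ σ)]
  refine mul_le_mul_of_nonneg_left ?_ (norm_nonneg _)
  have h2 : (Finset.univ.erase σ).card = Module.finrank ℚ K - 1 := by
    rw [Finset.card_erase_of_mem (Finset.mem_univ σ), Finset.card_univ, card_emb]
  rw [← h2, ← Finset.prod_const]
  exact Finset.prod_le_prod (fun _ _ => norm_nonneg _) (fun τ _ => hx τ)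

theorem pow_le_exp (d : ℕ) {D : ℝ} (hD : 0 ≤ D) :
    (D + 2) ^ d ≤ (2 ^ d * (d.factorial : ℝ) * Real.exp 1) * Real.exp (D / 2) := by
  have h1 := Real.pow_div_factorial_le_exp ((D + 2) / 2) (by linarith) d
  have h2 : (0 : ℝ) < d.factorial := by exact_mod_cast d.factorial_pos
  rw [div_le_iff₀ h2] at h1
  have h3 : Real.exp ((D + 2) / 2) = Real.exp 1 * Real.exp (D / 2) := by
    rw [← Real.exp_add]
    congr 1
    ring
  rw [h3, div_pow, div_le_iff₀ (by positivity)] at h1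
  nlinarith [h1]

theorem t_UNIT : Pool.Agent.H525.ISO.S_UNIT := by
  intro K _ _
  set d := Module.finrank ℚ K with hd
  have hd0 : 0 < d := Module.finrank_pos
  set T : Finset (𝓞 K) := (small_finite (K := K)).toFinset with hT
  set C : ℝ := (T.card + 1) * (2 ^ d * (d.factorial : ℝ) * Real.exp 1) with hC
  have hf : (1 : ℝ) ≤ d.factorial := by exact_mod_cast d.factorial_pos
  have h2d : (1 : ℝ) ≤ 2 ^ d := one_le_pow₀ (by norm_num)
  have he : (1 : ℝ) ≤ Real.exp 1 := Real.one_le_exp zero_le_one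
  have hC0 : 1 ≤ (2 ^ d * (d.factorial : ℝ) * Real.exp 1) :=
    one_le_mul_of_one_le_of_one_le (one_le_mul_of_one_le_of_one_le h2d hf) he
  refine ⟨C, ?_, ?_⟩
  · refine one_le_mul_of_one_le_of_one_le ?_ hC0
    have : (0 : ℝ) ≤ T.card := Nat.cast_nonneg _
    linarith
  intro S I B hB hI hS
  have hB0 : 0 < B := by linarith
  rcases S.eq_empty_or_nonempty with rfl | ⟨x₀, hx₀⟩
  · simp only [Finset.card_empty, Nat.cast_zero]
    have : 0 ≤ C := by positivity
    positivity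
  have hN0 : 0 < (Ideal.absNorm I : ℝ) := by
    have : Ideal.absNorm I ≠ 0 := by
      rw [Ne, Ideal.absNorm_eq_zero_iff]
      exact hI
    exact_mod_cast Nat.pos_of_ne_zero this
  have hlow : ∀ x ∈ S, ∀ σ : K →ₐ[ℚ] ℂ,
      (Ideal.absNorm I : ℝ) ≤ ‖σ (x : K)‖ * B ^ (d - 1) := fun x hx σ =>
    lower hB (hS x hx).1 (hS x hx).2 σ
  have hpos : ∀ x ∈ S, ∀ σ : K →ₐ[ℚ] ℂ, 0 < ‖σ (x : K)‖ := by
    intro x hx σ
    by_contra hcon
    have h0 : ‖σ (x : K)‖ = 0 := le_antisymm (not_lt.1 hcon) (norm_nonneg _)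
    have := hlow x hx σ
    rw [h0, zero_mul] at this
    linarith
  set D : ℝ := Real.log (B ^ d / Ideal.absNorm I) with hD
  have hBd : B ^ d = B * B ^ (d - 1) := by
    rw [← pow_succ']
    congr 1
    omega
  obtain ⟨σ₀⟩ : Nonempty (K →ₐ[ℚ] ℂ) := by
    rw [← Fintype.card_pos_iff, card_emb]
    exact hd0
  have hNB : (Ideal.absNorm I : ℝ) ≤ B ^ d := by
    rw [hBd]
    refine (hlow x₀ hx₀ σ₀).trans ?_
    exact mul_le_mul_of_nonneg_right ((hS x₀ hx₀).2 σ₀) (by positivity)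
  have hD0 : 0 ≤ D := Real.log_nonneg (by rwa [le_div_iff₀ hN0, one_mul])
  -- the range of the logarithms
  set lo : ℝ := Real.log (Ideal.absNorm I) - Real.log (B ^ (d - 1)) with hlo
  have hhi : Real.log B = lo + D := by
    rw [hlo, hD, Real.log_div (by positivity) hN0.ne', hBd, Real.log_mul hB0.ne' (by positivity)]
    ring
  have hlog : ∀ x ∈ S, ∀ σ : K →ₐ[ℚ] ℂ,
      lo ≤ Real.log ‖σ (x : K)‖ ∧ Real.log ‖σ (x : K)‖ ≤ lo + D := by
    intro x hx σ
    have h1 := hpos x hx σ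
    constructor
    · have h2 := Real.log_le_log hN0 (hlow x hx σ)
      rw [Real.log_mul h1.ne' (by positivity)] at h2
      linarith
    · rw [← hhi]
      exact Real.log_le_log h1 ((hS x hx).2 σ)
  set f : 𝓞 K → (K →ₐ[ℚ] ℂ) → ℤ := fun x σ => ⌊Real.log ‖σ (x : K)‖⌋ with hfdef
  set R : Finset ((K →ₐ[ℚ] ℂ) → ℤ) := Fintype.piFinset (fun _ => Finset.Icc ⌊lo⌋ ⌊lo + D⌋) with hR
  have hmap : ∀ x ∈ S, f x ∈ R := by
    intro x hx
    rw [hR, Fintype.mem_piFinset]
    intro σ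
    rw [Finset.mem_Icc]
    exact ⟨Int.floor_le_floor (hlog x hx σ).1, Int.floor_le_floor (hlog x hx σ).2⟩
  have hRc : (R.card : ℝ) ≤ (D + 2) ^ d := by
    rw [hR, Fintype.card_piFinset, Finset.prod_const, Finset.card_univ, card_emb, ← hd, Int.card_Icc]
    push_cast
    refine pow_le_pow_left₀ (Nat.cast_nonneg _) ?_ d
    have h1 : ⌊lo⌋ ≤ ⌊lo + D⌋ := Int.floor_le_floor (by linarith)
    have h2 : (((⌊lo + D⌋ + 1 - ⌊lo⌋).toNat : ℤ) : ℝ) = ((⌊lo + D⌋ + 1 - ⌊lo⌋ : ℤ) : ℝ) := by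
      congr 1
      exact Int.toNat_of_nonneg (by omega)
    rw [Int.cast_natCast] at h2
    rw [h2]
    push_cast
    have h3 := Int.floor_le (lo + D)
    have h4 := Int.lt_floor_add_one lo
    linarith
  have hfib : ∀ y ∈ R, (S.filter (fun x => f x = y)).card ≤ T.card := by
    intro y _
    rcases (S.filter (fun x => f x = y)).eq_empty_or_nonempty with h0 | ⟨x, hx⟩
    · rw [h0]
      simp
    rw [Finset.mem_filter] at hx
    -- every element of the fibre is a multiple of x by an element of T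
    have hmul : ∀ z ∈ S.filter (fun x => f x = y), ∃ u ∈ T, z = x * u := by
      intro z hz
      rw [Finset.mem_filter] at hz
      have h1 : Ideal.span {z} = Ideal.span {x} := by rw [(hS z hz.1).1, (hS x hx.1).1]
      have h2 : x ∣ z := by
        rw [← Ideal.span_singleton_le_span_singleton, h1]
      obtain ⟨u, hu⟩ := h2
      refine ⟨u, ?_, hu⟩
      rw [hT, Set.Finite.mem_toFinset]
      intro σ
      have h3 := hpos x hx.1 σ
      have h4 := hpos z hz.1 σ
      have h5 : ‖σ (z : K)‖ = ‖σ (x : K)‖ * ‖σ (u : K)‖ := by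
        rw [hu]
        simp
      have h6 : Real.log ‖σ (z : K)‖ ≤ Real.log ‖σ (x : K)‖ + 1 := by
        have h7 : ⌊Real.log ‖σ (z : K)‖⌋ = ⌊Real.log ‖σ (x : K)‖⌋ := by
          have := congrFun (hz.2.trans hx.2.symm) σ
          exact this
        have h8 := Int.lt_floor_add_one (Real.log ‖σ (z : K)‖)
        have h9 := Int.floor_le (Real.log ‖σ (x : K)‖)
        rw [h7] at h8
        linarith
      have h10 : ‖σ (z : K)‖ ≤ ‖σ (x : K)‖ * Real.exp 1 := by
        calc ‖σ (z : K)‖ = Real.exp (Real.log ‖σ (z : K)‖) := (Real.exp_log h4).symm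
          _ ≤ Real.exp (Real.log ‖σ (x : K)‖ + 1) := Real.exp_le_exp.2 h6
          _ = ‖σ (x : K)‖ * Real.exp 1 := by rw [Real.exp_add, Real.exp_log h3]
      rw [h5] at h10
      exact le_of_mul_le_mul_left h10 h3
    choose! g hg1 hg2 using hmul
    refine Finset.card_le_card_of_injOn g hg1 ?_
    intro a ha b hb hab
    rw [hg2 a ha, hg2 b hb, hab]
  have hcard : S.card ≤ T.card * R.card := by
    exact Finset.card_le_mul_card_image_of_maps_to hmap _ hfib
  have hsq : Real.sqrt (B ^ d / Ideal.absNorm I) = Real.exp (D / 2) := by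
    rw [Real.sqrt_eq_rpow, Real.rpow_def_of_pos (by positivity)]
    congr 1
    rw [hD]
    ring
  rw [hsq]
  have h1 : (S.card : ℝ) ≤ T.card * R.card := by exact_mod_cast hcard
  have h2 := pow_le_exp d hD0
  have h3 : (T.card : ℝ) * R.card ≤ T.card * ((2 ^ d * (d.factorial : ℝ) * Real.exp 1) * Real.exp (D / 2)) :=
    mul_le_mul_of_nonneg_left (hRc.trans h2) (Nat.cast_nonneg _)
  refine (h1.trans h3).trans ?_
  have h4 : 0 ≤ (2 ^ d * (d.factorial : ℝ) * Real.exp 1) * Real.exp (D / 2) := by positivity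
  rw [hC, mul_assoc, add_mul, one_mul]
  linarith

end Pool.Agent.H249.ISO
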